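import Pool.Agent.BOX.StmtsG

/-!
# BOX, row T3S: linearity and symmetry of the trilinear convolution
-/

set_option autoImplicit false

namespace Pool.Agent.BOX.H8

open Pool.Agent.BOX

theorem sumT3 {Γ B : Type} [AddCommGroup Γ] [NormedCommRing B] [CompleteSpace B] (F G H : Γ → B)
    (hF : Summable fun g => ‖F g‖) (hG : Summable fun g => ‖G g‖) (hH : Summable fun g => ‖H g‖)
    (g : Γ) : Summable fun h : Γ × Γ => F h.1 * G h.2 * H (g - h.1 - h.2) := by
  have h1 : Summable fun h : Γ × Γ => ‖F h.1‖ * ‖G h.2‖ :=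
    hF.mul_of_nonneg hG (fun _ => norm_nonneg _) (fun _ => norm_nonneg _)
  have h2 : ∀ x, ‖H x‖ ≤ ∑' y, ‖H y‖ := fun x => hH.le_tsum x (fun _ _ => norm_nonneg _)
  refine Summable.of_norm_bounded (h1.mul_right (∑' y, ‖H y‖)) fun h => ?_
  calc ‖F h.1 * G h.2 * H (g - h.1 - h.2)‖ ≤ ‖F h.1 * G h.2‖ * ‖H (g - h.1 - h.2)‖ := norm_mul_le _ _
    _ ≤ (‖F h.1‖ * ‖G h.2‖) * ∑' y, ‖H y‖ :=
      mul_le_mul (norm_mul_le _ _) (h2 _) (norm_nonneg _) (mul_nonneg (norm_nonneg _) (norm_nonneg _))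

/-- the involution `(a, b) ↦ (a, g - a - b)` -/
def inv2 {Γ : Type} [AddCommGroup Γ] (g : Γ) : Γ × Γ ≃ Γ × Γ where
  toFun h := (h.1, g - h.1 - h.2)
  invFun h := (h.1, g - h.1 - h.2)
  left_inv h := by
    ext
    · rfl
    · show g - h.1 - (g - h.1 - h.2) = h.2
      abel
  right_inv h := by
    ext
    · rfl
    · show g - h.1 - (g - h.1 - h.2) = h.2
      abel

theorem t3s : T3sStmt := by
  intro Γ B _ _ _ F F' G H hF hF' hG hH g
  refine ⟨?_, ?_, ?_, ?_, ?_⟩
  · unfold T3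
    rw [← (sumT3 F G H hF hG hH g).tsum_add (sumT3 F' G H hF' hG hH g)]
    apply tsum_congr
    intro h
    ring
  · unfold T3
    rw [← (Equiv.prodComm Γ Γ).tsum_eq]
    apply tsum_congr
    intro h
    show F h.2 * G h.1 * H (g - h.2 - h.1) = G h.1 * F h.2 * H (g - h.1 - h.2)
    rw [sub_right_comm g h.2 h.1]
    ring
  · unfold T3
    rw [← (inv2 g).tsum_eq]
    apply tsum_congr
    intro h
    show F h.1 * G (g - h.1 - h.2) * H (g - h.1 - (g - h.1 - h.2)) =
      F h.1 * H h.2 * G (g - h.1 - h.2)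
    have : g - h.1 - (g - h.1 - h.2) = h.2 := by abel
    rw [this]
    ring
  · intro c
    unfold T3
    rw [← (sumT3 F G H hF hG hH g).tsum_mul_left c]
    apply tsum_congr
    intro h
    ring
  · intro e
    unfold T3
    rw [← (Equiv.prodCongr e.toEquiv e.toEquiv).tsum_eq
      (fun h : Γ × Γ => F h.1 * G h.2 * H (e g - h.1 - h.2))]
    apply tsum_congr
    intro h
    show F (e h.1) * G (e h.2) * H (e (g - h.1 - h.2)) =
      F (e h.1) * G (e h.2) * H (e g - e h.1 - e h.2)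
    rw [map_sub, map_sub]

end Pool.Agent.BOX.H8
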